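import Pool.Agent.R871.SG.ArithC
import Pool.Agent.R871.SG.LineC

/-!
MP_c7af3c_ag, Q1: arithmetically hyperbolic projective varieties over the complex numbers, entire
curves of slow growth and holomorphic discs of bounded index.
-/

set_option autoImplicit false

namespace Pool.Agent.Results.MP_c7af3c_ag.ArithmeticToAnalytic

open Pool.Agent.R871.SG MvPolynomial
open scoped LinearAlgebra.Projectivization

/-- Let `X = {F = 0}` be a closed subvariety of `ℙⁿ` over the complex numbers. There is a function `φ`
with `φ r / log r → ∞` for `r → ∞` such that the following holds for every closed subset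
`Z = {G = 0}` with the property that over every subring `A` of `ℂ` which is finitely generated as a ring
there are only finitely many points of `X`, not in `Z`, which have homogeneous coordinates in `A` that
generate the unit ideal of `A` (for `Z` empty, all arithmetically hyperbolic `X` have this property).

(1) Every nonconstant entire curve `f` in `X`, with homogeneous coordinates without common zeros such
that `log ‖f z‖ ≤ φ r` for `‖z‖ ≤ r`, for arbitrarily large `r`, lies in `Z`.

(2) For every natural number `d` and every `ε > 0` there is `C` such that all holomorphic maps `f` from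
a disc `|z| < r` to `X` (homogeneous coordinates without common zeros, with the power series
`∑ a_m z^m`) of index at most `d` (there is a maximal term `‖a_j‖ r^j` with `j ≤ d`) and with `f 0`
not in the `ε`-neighbourhood of `Z` satisfy `‖a_m‖ r^m ≤ C ‖a_0‖` for all `m` and have at the centre of
the disc a derivative of at most `C / r`: `r |a_{0,s} a_{1,t} - a_{0,t} a_{1,s}| ≤ C ‖a_0‖²`. -/
theorem result {n : ℕ} {ι : Type} (F : ι → MvPolynomial (Fin (n + 1)) ℂ)
    (hF : ∀ i, ∃ e, (F i).IsHomogeneous e) :
    ∃ φ : ℝ → ℝ, Grows φ ∧ ∀ (κ : Type) (G : κ → MvPolynomial (Fin (n + 1)) ℂ),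
      (∀ k, ∃ e, (G k).IsHomogeneous e) → ArithOutside F G →
        SlowIn F Set.univ φ G ∧
        ∀ (d : ℕ), ∀ ε > 0, ∃ C : ℝ, ∀ (r : ℝ) (f : ℂ → Fin (n + 1) → ℂ)
          (a : ℕ → Fin (n + 1) → ℂ), 0 < r → DiscIn {x | ∀ i, eval x (F i) = 0} 1 r f a →
          IndexLE a d r → (∀ x, (∀ k, eval x (G k) = 0) → ε * ‖a 0‖ < ‖a 0 - x‖) →
          (∀ m, ‖a m‖ * r ^ m ≤ C * ‖a 0‖) ∧
            ∀ s t, r * ‖a 0 s * a 1 t - a 0 t * a 1 s‖ ≤ C * ‖a 0‖ ^ 2 := by
  obtain ⟨φ, hφ, h⟩ := approx_rational F hF isClosed_univ (fun _ _ _ => Set.mem_univ _)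
  refine ⟨φ, hφ, fun κ G hG hfin => ⟨?_, fun d ε hε => ?_⟩⟩
  · refine (slow_iff hφ h (fun _ _ _ => Set.mem_univ _) hG).1 ?_
    intro P hP hnc _ z k
    exact lines_of_arith hfin hP.2.1 (fun z i => hP.2.2 z i) hnc z k
  · have hcl : ∀ {η : Type} (E : η → MvPolynomial (Fin (n + 1)) ℂ),
        IsClosed {x : Fin (n + 1) → ℂ | ∀ i, eval x (E i) = 0} := by
      intro η E
      rw [Set.ofPred_forall]
      exact isClosed_iInter fun k =>
        isClosed_eq (MvPolynomial.continuous_eval (E k)) continuous_const
    have hsm : ∀ {η : Type} (E : η → MvPolynomial (Fin (n + 1)) ℂ),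
        (∀ i, ∃ e, (E i).IsHomogeneous e) → ∀ (a : ℂ),
        ∀ x ∈ {x : Fin (n + 1) → ℂ | ∀ i, eval x (E i) = 0},
          a • x ∈ {x : Fin (n + 1) → ℂ | ∀ i, eval x (E i) = 0} := by
      intro η E hE a x hx i
      obtain ⟨e, he⟩ := hE i
      rw [eval_smul_form he, hx i, mul_zero]
    refine (disc_iff (hcl F) (hcl G) (hsm F hF) (hsm G hG) d).1 ?_ ε hε
    intro P _ hP hnc z k
    exact lines_of_arith hfin (fun z => (hP z).1) (fun z i => (hP z).2 i) hnc z k

end Pool.Agent.Results.MP_c7af3c_ag.ArithmeticToAnalytic
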