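import Mathlib
import Pool.Agent.R477.WD.Inf

set_option autoImplicit false

/-!
# Models of projective varieties, reductions, and weighted automata

Let `A` be a domain of characteristic zero, finitely generated over `ℤ`, and let `X` and `Z` be the
closed subschemes of projective `n`-space over `A` given by the forms `F` and `G` (for `Z` empty take
`G = 1`).  So `X` is a model over `A` of a projective variety over an algebraically closed field
`k ⊇ A` of characteristic zero.

**Weighted automata.**  Let `K` be a field with a homomorphism `φ : A → K`. A weighted automaton of
dimension `r` over `K` attaches to a word `w = w_1 ⋯ w_l` over a finite alphabet the vector
`M T_{w_l} ⋯ T_{w_1} v`, where the transition matrices `T_a` are ARBITRARY `r × r` matrices over `K`: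
they need not be invertible, and the monoid generated by them is in general neither commutative nor
contained in a group. We consider weighted automata whose values at the words which are accepted by
a deterministic automaton `D` are homogeneous coordinates of points of the fibre `X_φ`. With one
letter these are the linear recurrence sequences of points `M T ^ m v`, `m = 0, 1, 2, …`; for words
which are the expansions of the natural numbers in base `b` these are the `b`-regular sequences of
Allouche and Shallit. `output` is the point given by the value at a word, if it is not in `Z_φ`.

**Theorem.** The following are equivalent.

* (`RatInA`) Over all fields which contain `A`, the rational curves in `X` lie in `Z`.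
* (`FewStates`) For all numbers `a, q, r` there are a nonzero `c ∈ A` and a number `B` such that for
  all fields `K` of ANY characteristic and all homomorphisms `φ : A → K` with `φ(c) ≠ 0`, the output
  of every weighted automaton over `K` of dimension `r`, with `a` letters, with values on `X_φ`, for
  the words accepted by a deterministic automaton with `q` states, is the output of a deterministic
  finite automaton with `B` states. In particular, outside of `Z_φ` there are at most `B` points.
* (`RecurrencesBounded`) For all `r` there are a nonzero `c ∈ A` and numbers `B`, `N` such that for
  all fields `K` of characteristic greater than `N` and all `φ : A → K` with `φ(c) ≠ 0` all linear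
  recurrence sequences `M T ^ m v`, `m = 0, 1, 2, …`, of points of `X_φ`, with `r × r` matrices `T`,
  have at most `B` points outside of `Z_φ`.

If `X` is arithmetically hyperbolic outside `Z` (`ArithHyp`: for all finitely generated domains
`R ⊇ A` only finitely many points of `X(R)` are not zeros of all forms `G`), then these conditions
are satisfied.  (They are also satisfied if `X` is groupless and `Z` is empty, since a rational curve
is an image of an elliptic curve.)

So, if a projective variety is arithmetically hyperbolic or groupless, then its reductions at all
points of a nonempty open subset of `Spec A`, in particular the reductions modulo almost all primes
for `A = ℤ`, have this property: every weighted automaton of given size with values on the reduction,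
over any field of positive characteristic, is a finite automaton with a number of states that does
not depend on the field and its characteristic, whereas the number of points over the given field,
and the number of values of such automata on other varieties, is not bounded.

The proof: over the complex numbers the elimination of source components (`Pool.Agent.R477.WA`)
shows that the automaton is finite. That two words lead to the same outputs is given by infinitely
many algebraic equations for the entries of the matrices, and finitely many of them imply all by
Hilbert's basis theorem. Hence a homomorphism from a product of fields `K_T` to `ℂ` which kills the
sequences with finitely many nonzero terms transfers the number of states from the limit to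
infinitely many `K_T`.
-/

namespace Pool.Agent.Results.MP_c7af3c_ag.AutomataOnReductions

open MvPolynomial Pool.Agent.R393.SP Pool.Agent.R477.WD

theorem countable_of_ft (A : Type) [CommRing A] [Algebra.FiniteType ℤ A] : Countable A := by
  obtain ⟨m, f, hf⟩ := (Algebra.FiniteType.iff_quotient_mvPolynomial'').1
    (inferInstance : Algebra.FiniteType ℤ A)
  have hc : Countable (MvPolynomial (Fin m) ℤ) := by
    rw [← Cardinal.mk_le_aleph0_iff]
    refine cardinalMk_le_max.trans ?_
    exact max_le (max_le (Cardinal.mk_le_aleph0_iff.2 inferInstance)
      (Cardinal.mk_le_aleph0_iff.2 inferInstance)) le_rfl
  exact hf.countable

/-- **Models without rational curves and weighted automata on their fibres.** -/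
theorem result (A : Type) [CommRing A] [IsDomain A] [CharZero A] [Algebra.FiniteType ℤ A]
    (ι ν : Type) [Finite ν] (n : ℕ) (F : ι → MvPolynomial (Fin (n + 1)) A)
    (G : ν → MvPolynomial (Fin (n + 1)) A) (hF : ∀ i, ∃ d, (F i).IsHomogeneous d)
    (hG : ∀ l, ∃ d, (G l).IsHomogeneous d) :
    List.TFAE [RatInA F G, FewStates F G, RecurrencesBounded F G] ∧
      (ArithHyp F G → FewStates F G) := by
  have hA : Countable A := countable_of_ft A
  have h := tfaeD (F := F) (G := G) hF hG
  exact ⟨h, fun ha => (h.out 0 1).1 (rat_of_arith hF hG ha)⟩

end Pool.Agent.Results.MP_c7af3c_ag.AutomataOnReductions
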