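import Pool.Agent.R871.SG.ArithW

/-!
MP_c7af3c_ag, Q1: families of projective varieties whose members over an algebraically closed subfield
of the complex numbers are arithmetically hyperbolic, and entire curves of arbitrary growth with windows
of vanishing or very small coefficients in all complex members.
-/

set_option autoImplicit false

namespace Pool.Agent.Results.MP_c7af3c_ag.FamiliesFromAlgebraicMembers

open Pool.Agent.R871.SG MvPolynomial

/-- Let `k` be an algebraically closed subfield of `ℂ`, let `T` be the union of the locally closed
subsets `{E l = 0, H l ≠ 0}` of the affine space of dimension `q`, which are defined over `k` (for example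
any locally closed subset defined over `k`), and let `X → T` be the family of projective varieties
`X_t = {F(t, ·) = 0} ⊆ ℙⁿ` given by polynomials over `k` which are homogeneous of degree at most `d` in
the last `n + 1` variables. There are numbers `ε D > 0` such that the following holds for all families of
closed subsets `Z_t = {G(t, ·) = 0}`, given by polynomials over `k` homogeneous in the last variables.

Assume that for every `t` in `T` with coordinates in `k` and every subring `A` of `k` which is finitely
generated as a ring, there are only finitely many points of `X_t` over `k`, not in `Z_t`, with homogeneous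
coordinates in `A` that generate the unit ideal of `A`. Then for every `t` in `T` with complex
coordinates every nonconstant entire curve in `X_t`, which has homogeneous coordinates given by an entire
`f = ∑ a_j z ^ j` (common zeros are allowed) such that for arbitrarily large `D` all `a_j` with
`D < j ≤ d D` satisfy `‖a_j‖ ≤ ε D`, lies in `Z_t`. -/
theorem result {k : Type} [Field k] [IsAlgClosed k] [Algebra k ℂ] {q n : ℕ} {ι : Type}
    (F : ι → MvPolynomial (Fin q ⊕ Fin (n + 1)) k) {d : ℕ} (hF : ∀ i, ∃ e ≤ d, HomFib (F i) e)
    (E : ℕ → Set (MvPolynomial (Fin q) k)) (H : ℕ → MvPolynomial (Fin q) k) :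
    ∃ ε : ℕ → ℝ, (∀ D, 0 < ε D) ∧
      ∀ (κ : Type) (G : κ → MvPolynomial (Fin q ⊕ Fin (n + 1)) k), (∀ l, ∃ d, HomFib (G l) d) →
        (∀ t : Fin q → k, InT E H t → ArithFib F G t) →
        ∀ t : Fin q → ℂ, InT E H t → ∀ (f : ℂ → Fin (n + 1) → ℂ) (a : ℕ → Fin (n + 1) → ℂ),
          IsSeries f a → Windows d ε a →
          InFib (fun i => map (algebraMap k ℂ) (F i)) t f → NonConstLine f →
            InFib (fun l => map (algebraMap k ℂ) (G l)) t f :=
  arith_windows F hF E H

end Pool.Agent.Results.MP_c7af3c_ag.FamiliesFromAlgebraicMembers
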