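import Pool.Agent.R393.SP.Arith

set_option autoImplicit false

/-!
# Models of projective varieties, reductions, and orbits of groups of matrices

Let `A` be a domain of characteristic zero, finitely generated over `ℤ`, and let `X` and `Z` be the
closed subschemes of projective `n`-space over `A` given by the forms `F` and `G` (for `Z` empty take
`G = 1`).  So `X` is a model over `A` of a projective variety over an algebraically closed field
`k ⊇ A` of characteristic zero.

**Families.**  Let `H` be a group and `K` a field with a homomorphism `A → K`.  A family of vectors
`x(h)`, `h ∈ H`, over `K` is given by iterated recurrences of complexity `(s, r, e)`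
(`IterVec s r e x`) if there are functions `X_1, …, X_s` on `H` with values in the invertible
`r × r` matrices over `K` such that for each `g ∈ H` the entries of `X_l(g h) X_l(h)⁻¹` are, for all
`h ∈ H`, values of fixed polynomials of degree at most `e` in each variable at the entries of the
`X_i(h)`, `X_i(h)⁻¹`, `i < l`, and the coordinates of `x(h)` are such polynomials in the entries of
all `X_i(h)`, `X_i(h)⁻¹`.  For `s = e = 1` this includes the orbits `M ρ(h) v` of arbitrary groups of
`r × r` matrices over `K`.

**Theorem.** The following are equivalent.

* (`RatInA`) Over all fields which contain `A`, the rational curves in `X` lie in `Z`.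
* (`FibresBounded`) For all `s, r, e` there are a nonzero `a ∈ A` and a number `B` such that for all
  fields `K` of ANY characteristic, all homomorphisms `φ : A → K` with `φ(a) ≠ 0`, all groups `H` and
  all families `x(h)`, `h ∈ H`, on the fibre `X_φ` given by iterated recurrences of complexity
  `(s, r, e)` over `K`, at most `B` points outside `Z_φ` have homogeneous coordinates `x(h)`.
* (`FibresBoundedPos`) The same for fields of characteristic greater than a number `N` and families
  of complexity `(1, 2, e)`.

If `X` is arithmetically hyperbolic outside `Z` (`ArithHyp`: for all finitely generated domains
`R ⊇ A` only finitely many points of `X(R)` are not zeros of all forms `G`), then these conditions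
are satisfied.  (They are also satisfied if `X` is groupless and `Z` is empty, since a rational curve
is an image of an elliptic curve.)

So, if a projective variety is arithmetically hyperbolic or groupless, then for each `r` all orbits
of all groups of `r × r` matrices, over all fields `K` of sufficiently large characteristic (and
over all points of a nonempty open subset of `Spec A`), which lie on the reduction of `X`, have at
most `B` points, where `B` does not depend on the field, the characteristic or the group. Over a
field of positive characteristic the groups can be finite, and they can be very large; for small
characteristics the statement is false (unitary groups act on the Fermat hypersurfaces of degree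
`q + 1`).

The proof is a compactness argument: counterexamples over fields `K_T` whose points of `Spec A` leave
every proper closed subset give, by a homomorphism from the product of the fields to `ℂ` which kills
the sequences with finitely many nonzero terms, a family over `ℂ` with infinitely many points on a
complex fibre over the generic point, and the theorem on iterated recurrences
(`Pool.Agent.Y377.IR`) gives a rational curve.
-/

namespace Pool.Agent.Results.MP_c7af3c_ag.ReductionsOfModels

open MvPolynomial Pool.Agent.R393.SP

theorem countable_of_ft (A : Type) [CommRing A] [Algebra.FiniteType ℤ A] : Countable A := by
  obtain ⟨m, f, hf⟩ := (Algebra.FiniteType.iff_quotient_mvPolynomial'').1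
    (inferInstance : Algebra.FiniteType ℤ A)
  have hc : Countable (MvPolynomial (Fin m) ℤ) := by
    rw [← Cardinal.mk_le_aleph0_iff]
    refine cardinalMk_le_max.trans ?_
    exact max_le (max_le (Cardinal.mk_le_aleph0_iff.2 inferInstance)
      (Cardinal.mk_le_aleph0_iff.2 inferInstance)) le_rfl
  exact hf.countable

/-- **Models without rational curves and orbits on their fibres.** -/
theorem result (A : Type) [CommRing A] [IsDomain A] [CharZero A] [Algebra.FiniteType ℤ A]
    (ι ν : Type) [Finite ν] (n : ℕ) (F : ι → MvPolynomial (Fin (n + 1)) A)
    (G : ν → MvPolynomial (Fin (n + 1)) A) (hF : ∀ i, ∃ d, (F i).IsHomogeneous d)
    (hG : ∀ l, ∃ d, (G l).IsHomogeneous d) :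
    List.TFAE [RatInA F G, FibresBounded F G, FibresBoundedPos F G] ∧
      (ArithHyp F G → FibresBounded F G) := by
  have hA : Countable A := countable_of_ft A
  refine ⟨?_, fun h => fibres hF hG (rat_of_arith hF hG h)⟩
  tfae_have 1 → 2 := fibres hF hG
  tfae_have 2 → 3 := pos_of_fibres
  tfae_have 3 → 1 := rat_of_pos
  tfae_finish

end Pool.Agent.Results.MP_c7af3c_ag.ReductionsOfModels
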